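import Pool.Agent.Helper50.VD.St

open MeasureTheory Set Filter Topology
open scoped ENNReal

noncomputable section

namespace VD.M_E4

theorem w_int : Integrable (fun x : ℝ × ℝ => (1 / (1 + x.1 ^ 2 + x.2 ^ 2)) ^ 2) := by
  have h1 := (integrable_inv_one_add_sq).mul_prod (integrable_inv_one_add_sq)
  refine h1.mono' ?_ ?_
  · apply Measurable.aestronglyMeasurable
    fun_prop
  · refine Eventually.of_forall fun x => ?_
    rw [Real.norm_of_nonneg (by positivity), div_pow, one_pow, ← mul_inv, ← one_div]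
    apply one_div_le_one_div_of_le (by positivity)
    nlinarith [sq_nonneg x.1, sq_nonneg x.2, mul_nonneg (sq_nonneg x.1) (sq_nonneg x.2)]

/-- integrand -/
def F (x : ℝ × ℝ) (p : (ℝ × ℝ) × (ℝ × ℝ)) : ℝ :=
  (kap p.1 x).1 * (kap p.2 x).1 + (kap p.1 x).2 * (kap p.2 x).2

theorem F_meas (hK0 : StK0) : Measurable (Function.uncurry F) := by
  have h1 : Measurable (fun q : (ℝ × ℝ) × ((ℝ × ℝ) × (ℝ × ℝ)) => kap q.2.1 q.1) :=
    hK0.2.2.comp ((measurable_fst.comp measurable_snd).prodMk measurable_fst)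
  have h2 : Measurable (fun q : (ℝ × ℝ) × ((ℝ × ℝ) × (ℝ × ℝ)) => kap q.2.2 q.1) :=
    hK0.2.2.comp ((measurable_snd.comp measurable_snd).prodMk measurable_fst)
  exact (h1.fst.mul h2.fst).add (h1.snd.mul h2.snd)

theorem F_le (x : ℝ × ℝ) (p : (ℝ × ℝ) × (ℝ × ℝ)) : ‖F x p‖ ≤ 2 * (‖kap p.1 x‖ * ‖kap p.2 x‖) := by
  unfold F
  have h1 := norm_fst_le (kap p.1 x)
  have h2 := norm_fst_le (kap p.2 x)
  have h3 := norm_snd_le (kap p.1 x)
  have h4 := norm_snd_le (kap p.2 x)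
  calc ‖(kap p.1 x).1 * (kap p.2 x).1 + (kap p.1 x).2 * (kap p.2 x).2‖
      ≤ ‖(kap p.1 x).1 * (kap p.2 x).1‖ + ‖(kap p.1 x).2 * (kap p.2 x).2‖ := norm_add_le _ _
    _ ≤ ‖kap p.1 x‖ * ‖kap p.2 x‖ + ‖kap p.1 x‖ * ‖kap p.2 x‖ := by
        rw [norm_mul, norm_mul]
        gcongr
    _ = _ := by ring

variable {A C : Set (ℝ × ℝ)}

theorem kap_int (hE3 : StE3) (hA : MeasurableSet A) (hA' : A ⊆ Om) {R : ℝ} (hR : A ⊆ Box R)
    (x : ℝ × ℝ) : Integrable (fun y => kap y x) (volume.restrict A) :=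
  (hE3.1 A hA hA' (vol_lt_top hR) x).1

theorem F_int_x (hE3 : StE3) (hA : MeasurableSet A) (hA' : A ⊆ Om) {R : ℝ} (hR : A ⊆ Box R)
    (hC : MeasurableSet C) (hC' : C ⊆ Om) {R' : ℝ} (hR' : C ⊆ Box R') (x : ℝ × ℝ) :
    Integrable (F x) ((volume.restrict A).prod (volume.restrict C)) := by
  have h1 := kap_int hE3 hA hA' hR x
  have h2 := kap_int hE3 hC hC' hR' x
  exact (h1.fst.mul_prod h2.fst).add (h1.snd.mul_prod h2.snd)

theorem bound (hE3 : StE3) (hA : MeasurableSet A) (R : ℝ) (hR : A ⊆ Box R) :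
    ∃ K : ℝ, 0 ≤ K ∧ ∀ x : ℝ × ℝ, ∫ y in A, ‖kap y x‖ ≤ K * (1 / (1 + x.1 ^ 2 + x.2 ^ 2)) := by
  obtain ⟨K, hK⟩ := hE3.2 (max R 1) (lt_max_of_lt_right one_pos)
  have hA2 : A ⊆ Box (max R 1) := hR.trans (Box_mono (le_max_left _ _))
  refine ⟨K, ?_, fun x => ?_⟩
  · have h1 := hK A hA hA2 (0, 0)
    have h2 : 0 ≤ ∫ y in A, ‖kap y (0, 0)‖ := integral_nonneg fun _ => norm_nonneg _
    simp only [ne_eq, OfNat.ofNat_ne_zero, not_false_eq_true, zero_pow, add_zero, div_one] at h1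
    linarith
  · have h1 := hK A hA hA2 x
    rwa [mul_one_div]

theorem F_int (hK0 : StK0) (hE3 : StE3) (hA : MeasurableSet A) (hA' : A ⊆ Om) {R : ℝ}
    (hR : A ⊆ Box R) (hC : MeasurableSet C) (hC' : C ⊆ Om) {R' : ℝ} (hR' : C ⊆ Box R') :
    Integrable (Function.uncurry F) ((volume : Measure (ℝ × ℝ)).prod
      ((volume.restrict A).prod (volume.restrict C))) := by
  obtain ⟨K, hK0', hK⟩ := bound hE3 hA R hR
  obtain ⟨K', hK0'', hK'⟩ := bound hE3 hC R' hR'
  rw [integrable_prod_iff (F_meas hK0).aestronglyMeasurable]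
  refine ⟨Eventually.of_forall fun x => F_int_x hE3 hA hA' hR hC hC' hR' x, ?_⟩
  refine (w_int.const_mul (2 * (K * K'))).mono' ?_ ?_
  · exact ((F_meas hK0).norm.stronglyMeasurable.integral_prod_right').aestronglyMeasurable
  · refine Eventually.of_forall fun x => ?_
    rw [Real.norm_of_nonneg (integral_nonneg fun _ => norm_nonneg _)]
    have h1 := kap_int hE3 hA hA' hR x
    have h2 := kap_int hE3 hC hC' hR' x
    have h3 : Integrable (fun p : (ℝ × ℝ) × (ℝ × ℝ) => 2 * (‖kap p.1 x‖ * ‖kap p.2 x‖))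
        ((volume.restrict A).prod (volume.restrict C)) :=
      (h1.norm.mul_prod h2.norm).const_mul 2
    calc ∫ p, ‖F x p‖ ∂((volume.restrict A).prod (volume.restrict C))
        ≤ ∫ p : (ℝ × ℝ) × (ℝ × ℝ), 2 * (‖kap p.1 x‖ * ‖kap p.2 x‖)
          ∂((volume.restrict A).prod (volume.restrict C)) :=
          integral_mono (F_int_x hE3 hA hA' hR hC hC' hR' x).norm h3 (fun p => F_le x p)
      _ = 2 * ((∫ y in A, ‖kap y x‖) * ∫ z in C, ‖kap z x‖) := by
          rw [integral_const_mul]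
          congr 1
          exact integral_prod_mul (fun y => ‖kap y x‖) (fun z => ‖kap z x‖)
      _ ≤ 2 * ((K * (1 / (1 + x.1 ^ 2 + x.2 ^ 2))) * (K' * (1 / (1 + x.1 ^ 2 + x.2 ^ 2)))) := by
          apply mul_le_mul_of_nonneg_left _ (by norm_num)
          apply mul_le_mul (hK x) (hK' x) (integral_nonneg fun _ => norm_nonneg _)
          positivity
      _ = 2 * (K * K') * (1 / (1 + x.1 ^ 2 + x.2 ^ 2)) ^ 2 := by ring

theorem vA_meas (hK0 : StK0) : StronglyMeasurable (vA A) := by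
  have h1 : Measurable (fun q : (ℝ × ℝ) × (ℝ × ℝ) => kap q.2 q.1) :=
    hK0.2.2.comp (measurable_snd.prodMk measurable_fst)
  exact h1.stronglyMeasurable.integral_prod_right' (ν := volume.restrict A)

theorem vA_prod_int (hK0 : StK0) (hE3 : StE3) (hA : MeasurableSet A) {R : ℝ}
    (hR : A ⊆ Box R) (hC : MeasurableSet C) {R' : ℝ} (hR' : C ⊆ Box R') :
    Integrable (fun x => (vA A x).1 * (vA C x).1 + (vA A x).2 * (vA C x).2) := by
  obtain ⟨K, hK0', hK⟩ := bound hE3 hA R hR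
  obtain ⟨K', hK0'', hK'⟩ := bound hE3 hC R' hR'
  refine (w_int.const_mul (2 * (K * K'))).mono' ?_ ?_
  · have h1 := (vA_meas (A := A) hK0).measurable
    have h2 := (vA_meas (A := C) hK0).measurable
    exact ((h1.fst.mul h2.fst).add (h1.snd.mul h2.snd)).aestronglyMeasurable
  · refine Eventually.of_forall fun x => ?_
    have h1 : ‖vA A x‖ ≤ K * (1 / (1 + x.1 ^ 2 + x.2 ^ 2)) :=
      (norm_integral_le_integral_norm _).trans (hK x)
    have h2 : ‖vA C x‖ ≤ K' * (1 / (1 + x.1 ^ 2 + x.2 ^ 2)) :=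
      (norm_integral_le_integral_norm _).trans (hK' x)
    calc ‖(vA A x).1 * (vA C x).1 + (vA A x).2 * (vA C x).2‖
        ≤ ‖(vA A x).1‖ * ‖(vA C x).1‖ + ‖(vA A x).2‖ * ‖(vA C x).2‖ := by
          rw [← norm_mul, ← norm_mul]; exact norm_add_le _ _
      _ ≤ ‖vA A x‖ * ‖vA C x‖ + ‖vA A x‖ * ‖vA C x‖ := by
          gcongr
          · exact norm_fst_le _
          · exact norm_fst_le _
          · exact norm_snd_le _
          · exact norm_snd_le _
      _ ≤ (K * (1 / (1 + x.1 ^ 2 + x.2 ^ 2))) * (K' * (1 / (1 + x.1 ^ 2 + x.2 ^ 2))) +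
          (K * (1 / (1 + x.1 ^ 2 + x.2 ^ 2))) * (K' * (1 / (1 + x.1 ^ 2 + x.2 ^ 2))) := by
          have h3 : 0 ≤ K * (1 / (1 + x.1 ^ 2 + x.2 ^ 2)) := by positivity
          have h4 := mul_le_mul h1 h2 (norm_nonneg _) h3
          linarith
      _ = 2 * (K * K') * (1 / (1 + x.1 ^ 2 + x.2 ^ 2)) ^ 2 := by ring

theorem diag_null : ∀ᵐ p ∂((volume : Measure (ℝ × ℝ)).prod (volume : Measure (ℝ × ℝ))),
    p.1 ≠ p.2 := by
  rw [ae_iff]
  have h1 : {a : (ℝ × ℝ) × (ℝ × ℝ) | ¬ a.1 ≠ a.2} = Set.diagonal (ℝ × ℝ) := by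
    ext a
    simp [Set.mem_diagonal_iff]
  rw [h1, Measure.measure_prod_null measurableSet_diagonal]
  refine Eventually.of_forall fun x => ?_
  have h2 : Prod.mk x ⁻¹' Set.diagonal (ℝ × ℝ) = {x} := by
    ext y
    simp [eq_comm]
  change volume (Prod.mk x ⁻¹' Set.diagonal (ℝ × ℝ)) = 0
  rw [h2]
  simp

theorem ae_prop (hA : MeasurableSet A) (hC : MeasurableSet C) :
    ∀ᵐ p ∂((volume.restrict A).prod (volume.restrict C)), p.1 ∈ A ∧ p.2 ∈ C ∧ p.1 ≠ p.2 := by
  rw [Measure.prod_restrict]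
  filter_upwards [ae_restrict_mem (hA.prod hC), ae_restrict_of_ae diag_null] with p hp hp'
  exact ⟨hp.1, hp.2, hp'⟩

end VD.M_E4

namespace VD

open M_E4 in
/-- bilinear energy identity int u_A.u_C = 2 BG(A,C): Fubini with an L2 dominating function -/
theorem mE4 (hK0 : StK0) (hE2 : StE2) (hE3 : StE3) : StE4 := by
  intro A C hA hC hA' hC' ⟨R, hR⟩ ⟨R', hR'⟩
  refine ⟨?_, vA_prod_int hK0 hE3 hA hR hC hR', ?_⟩
  · have h1 := vA_prod_int hK0 hE3 hA hR hA hR
    refine h1.congr (Eventually.of_forall fun x => ?_)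
    simp only
    ring
  have hI := F_int hK0 hE3 hA hA' hR hC hC' hR'
  have h1 : ∫ x, ((vA A x).1 * (vA C x).1 + (vA A x).2 * (vA C x).2) =
      ∫ x, ∫ p, F x p ∂((volume.restrict A).prod (volume.restrict C)) := by
    apply integral_congr_ae
    refine Eventually.of_forall fun x => ?_
    have ha := kap_int hE3 hA hA' hR x
    have hc := kap_int hE3 hC hC' hR' x
    simp only [F]
    rw [integral_add (ha.fst.mul_prod hc.fst) (ha.snd.mul_prod hc.snd)]
    unfold vA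
    rw [fst_integral ha, fst_integral hc, snd_integral ha, snd_integral hc]
    congr 1
    · exact (integral_prod_mul (fun y => (kap y x).1) (fun z => (kap z x).1)).symm
    · exact (integral_prod_mul (fun y => (kap y x).2) (fun z => (kap z x).2)).symm
  have h2 : ∀ᵐ p ∂((volume.restrict A).prod (volume.restrict C)),
      ∫ x, F x p = 2 * G p.1 p.2 := by
    filter_upwards [ae_prop hA hC, hI.prod_left_ae] with p hp hp'
    exact hE2 p.1 p.2 (hA' hp.1) (hC' hp.2.1) hp.2.2 hp'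
  have h3 : Integrable (fun p : (ℝ × ℝ) × (ℝ × ℝ) => 2 * G p.1 p.2)
      ((volume.restrict A).prod (volume.restrict C)) := hI.integral_prod_right.congr h2
  rw [h1, integral_integral_swap hI, integral_congr_ae h2, integral_prod _ h3]
  unfold BG
  rw [← integral_const_mul]
  apply setIntegral_congr_fun hA
  intro y hy
  have hy2 : 0 < y.2 := hA' hy
  simp only
  rw [integral_const_mul]
  congr 1
  unfold phi
  rw [← integral_const_mul]
  apply integral_congr_ae
  refine Eventually.of_forall fun z => ?_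
  simp only [N, if_neg hy2.ne']
  field_simp

end VD
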