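import Pool.Agent.Helper50.VD.St

open MeasureTheory Set Filter Topology
open scoped ENNReal

noncomputable section

namespace VD.M_M1

/-- substitution `t = ρ²` on the half line -/
theorem subst_sq (h : ℝ → ℝ≥0∞) :
    ∫⁻ t in Ioi (0 : ℝ), h t = ∫⁻ s in Ioi (0 : ℝ), ENNReal.ofReal (2 * s) * h (s ^ 2) := by
  have himg : (fun s : ℝ => s ^ 2) '' Ioi (0 : ℝ) = Ioi 0 := by
    ext t
    constructor
    · rintro ⟨s, hs, rfl⟩
      exact pow_pos (mem_Ioi.mp hs) 2
    · intro ht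
      exact ⟨Real.sqrt t, Real.sqrt_pos.mpr ht, Real.sq_sqrt (le_of_lt ht)⟩
  have h1 := lintegral_image_eq_lintegral_abs_deriv_mul (f := fun s : ℝ => s ^ 2)
    (f' := fun s => 2 * s) (s := Ioi (0 : ℝ)) measurableSet_Ioi
    (fun x _ => by simpa using (hasDerivAt_pow 2 x).hasDerivWithinAt)
    (fun x hx y hy hxy => by
      have := mem_Ioi.mp hx; have := mem_Ioi.mp hy
      exact (pow_left_inj₀ (by linarith) (by linarith) two_ne_zero).mp hxy) h
  rw [himg] at h1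
  rw [h1]
  apply setLIntegral_congr_fun measurableSet_Ioi
  intro s hs
  have hs' := mem_Ioi.mp hs
  simp only
  rw [abs_of_pos (by positivity)]

/-- polar coordinates in the plane -/
theorem pol (h : ℝ → ℝ≥0∞) (hh : Measurable h) :
    ∫⁻ w : ℝ × ℝ, h (w.1 ^ 2 + w.2 ^ 2) = ENNReal.ofReal Real.pi * ∫⁻ t in Ioi (0 : ℝ), h t := by
  rw [← lintegral_comp_polarCoord_symm, subst_sq h]
  have htgt : polarCoord.target = Ioi (0 : ℝ) ×ˢ Ioo (-Real.pi) Real.pi := rfl
  rw [htgt, Measure.volume_eq_prod, ← Measure.prod_restrict]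
  have h1 : ∀ p : ℝ × ℝ, ENNReal.ofReal p.1 • h ((polarCoord.symm p).1 ^ 2 +
      (polarCoord.symm p).2 ^ 2) = (ENNReal.ofReal p.1 * h (p.1 ^ 2)) * 1 := by
    intro p
    rw [polarCoord_symm_apply, mul_one, smul_eq_mul]
    congr 2
    have := Real.sin_sq_add_cos_sq p.2
    simp only
    calc (p.1 * Real.cos p.2) ^ 2 + (p.1 * Real.sin p.2) ^ 2 =
        p.1 ^ 2 * (Real.sin p.2 ^ 2 + Real.cos p.2 ^ 2) := by ring
      _ = p.1 ^ 2 := by rw [this, mul_one]
  simp_rw [h1]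
  have h2 : AEMeasurable (fun x : ℝ => ENNReal.ofReal x * h (x ^ 2))
      (volume.restrict (Ioi 0)) := by fun_prop
  rw [lintegral_prod_mul h2 aemeasurable_const]
  simp only [lintegral_const, MeasurableSet.univ, Measure.restrict_apply, univ_inter,
    Real.volume_Ioo, one_mul]
  have h3 : ∫⁻ s in Ioi (0 : ℝ), ENNReal.ofReal (2 * s) * h (s ^ 2) =
      ENNReal.ofReal 2 * ∫⁻ s in Ioi (0 : ℝ), ENNReal.ofReal s * h (s ^ 2) := by
    rw [← lintegral_const_mul _ (by fun_prop)]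
    congr 1
    funext s
    rw [ENNReal.ofReal_mul (by norm_num), mul_assoc]
  rw [h3, ← mul_assoc, ← ENNReal.ofReal_mul Real.pi_pos.le, mul_comm]
  congr 2
  ring

/-- cylindrical coordinates in `E3` -/
theorem cyl (g : ℝ × ℝ → ℝ≥0∞) (hg : Measurable g) :
    ∫⁻ Y : E3, g (Y 0, Y 1 ^ 2 + Y 2 ^ 2) =
      ENNReal.ofReal Real.pi * ∫⁻ τ : ℝ, ∫⁻ t in Ioi (0 : ℝ), g (τ, t) := by
  have h1 : ∫⁻ Y : E3, g (Y 0, Y 1 ^ 2 + Y 2 ^ 2) =
      ∫⁻ y : Fin 3 → ℝ, g (y 0, y 1 ^ 2 + y 2 ^ 2) := by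
    rw [← (PiLp.volume_preserving_ofLp (Fin 3)).lintegral_comp (by fun_prop)]
  have h2 : ∫⁻ y : Fin 3 → ℝ, g (y 0, y 1 ^ 2 + y 2 ^ 2) =
      ∫⁻ p : ℝ × (Fin 2 → ℝ), g (p.1, p.2 0 ^ 2 + p.2 1 ^ 2) := by
    rw [← (volume_preserving_piFinSuccAbove (fun _ : Fin 3 => ℝ) 0).lintegral_comp (by fun_prop)]
    rfl
  rw [h1, h2, Measure.volume_eq_prod, lintegral_prod _ (by fun_prop)]
  rw [← lintegral_const_mul _ (by fun_prop)]
  congr 1
  funext τ
  have h3 : ∫⁻ q : Fin 2 → ℝ, g (τ, q 0 ^ 2 + q 1 ^ 2) =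
      ∫⁻ w : ℝ × ℝ, g (τ, w.1 ^ 2 + w.2 ^ 2) := by
    rw [← (volume_preserving_finTwoArrow ℝ).lintegral_comp (by fun_prop)]
    rfl
  simp only
  rw [h3, pol (fun t => g (τ, t)) (by fun_prop)]

/-- shift -/
theorem shift_lint (c : ℝ) (G : ℝ → ℝ≥0∞) :
    ∫⁻ t in Ioi (0 : ℝ), G (c + t) = ∫⁻ u in Ioi c, G u := by
  rw [← lintegral_indicator measurableSet_Ioi, ← lintegral_indicator measurableSet_Ioi,
    ← lintegral_add_left_eq_self (μ := volume) (fun u => (Ioi c).indicator G u) c]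
  congr 1
  funext t
  by_cases h : 0 < t
  · rw [indicator_of_mem (mem_Ioi.mpr h), indicator_of_mem (mem_Ioi.mpr (by linarith))]
  · rw [indicator_of_notMem (by simpa using h), indicator_of_notMem (by simpa using h)]

/-- integration against a kernel depending on `‖Y‖` and `Y 0` -/
theorem axial (k : ℝ × ℝ → ℝ≥0∞) (hk : Measurable k) :
    ∫⁻ Y : E3, k (‖Y‖ ^ 2, Y 0) =
      ∫⁻ s in Ioi (0 : ℝ), ENNReal.ofReal (2 * Real.pi * s) *
        ∫⁻ τ in Ioo (-s) s, k (s ^ 2, τ) := by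
  have h1 : ∫⁻ Y : E3, k (‖Y‖ ^ 2, Y 0) =
      ∫⁻ Y : E3, (fun p : ℝ × ℝ => k (p.1 ^ 2 + p.2, p.1)) (Y 0, Y 1 ^ 2 + Y 2 ^ 2) := by
    congr 1
    funext Y
    simp only
    rw [EuclideanSpace.norm_sq_eq]
    simp only [Real.norm_eq_abs, sq_abs, Fin.sum_univ_three]
    rw [add_assoc]
  rw [h1, cyl (fun p : ℝ × ℝ => k (p.1 ^ 2 + p.2, p.1)) (by fun_prop)]
  simp only
  have h2 : ∀ τ : ℝ, ∫⁻ t in Ioi (0 : ℝ), k (τ ^ 2 + t, τ) =
      ∫⁻ u in Ioi (0 : ℝ), (if τ ^ 2 < u then k (u, τ) else 0) := by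
    intro τ
    rw [shift_lint (τ ^ 2) (fun u => k (u, τ)), ← lintegral_indicator measurableSet_Ioi,
      ← lintegral_indicator measurableSet_Ioi]
    congr 1
    funext u
    by_cases h : τ ^ 2 < u
    · have h0 : (0 : ℝ) < u := lt_of_le_of_lt (sq_nonneg τ) h
      rw [indicator_of_mem (mem_Ioi.mpr h), indicator_of_mem (mem_Ioi.mpr h0), if_pos h]
    · rw [indicator_of_notMem (by simpa using h)]
      by_cases h0 : (0 : ℝ) < u
      · rw [indicator_of_mem (mem_Ioi.mpr h0), if_neg h]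
      · rw [indicator_of_notMem (by simpa using h0)]
  simp_rw [h2]
  rw [lintegral_lintegral_swap]
  · rw [subst_sq, ← lintegral_const_mul']
    · apply setLIntegral_congr_fun measurableSet_Ioi
      intro s hs
      have hs' := mem_Ioi.mp hs
      simp only
      rw [← mul_assoc, ← ENNReal.ofReal_mul Real.pi_pos.le]
      congr 1
      · congr 1; ring
      · rw [← lintegral_indicator measurableSet_Ioo]
        congr 1
        funext τ
        by_cases h : τ ∈ Ioo (-s) s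
        · rw [indicator_of_mem h, if_pos]
          exact sq_lt_sq' h.1 h.2
        · rw [indicator_of_notMem h, if_neg]
          intro h'
          exact h (abs_lt.mp (abs_lt_of_sq_lt_sq h' hs'.le))
    · exact ENNReal.ofReal_ne_top
  · apply Measurable.aemeasurable
    apply Measurable.ite
    · exact measurableSet_lt (by fun_prop) (by fun_prop)
    · fun_prop
    · fun_prop

theorem norm_e0 : ‖e0‖ = 1 := by
  unfold e0
  simp

theorem exists_rot (X : E3) : ∃ R : E3 ≃ₗᵢ[ℝ] E3, R X = ‖X‖ • e0 := by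
  refine ⟨Submodule.reflection (ℝ ∙ (X - ‖X‖ • e0))ᗮ, ?_⟩
  apply Submodule.reflection_sub
  rw [norm_smul, norm_norm, norm_e0, mul_one]

theorem norm_sub_e0 (r : ℝ) (Y : E3) : ‖r • e0 - Y‖ ^ 2 = r ^ 2 + ‖Y‖ ^ 2 - 2 * r * Y 0 := by
  rw [EuclideanSpace.norm_sq_eq, EuclideanSpace.norm_sq_eq]
  have h20 : (2 : Fin 3) ≠ 0 := by decide
  have h10 : (1 : Fin 3) ≠ 0 := by decide
  simp only [Real.norm_eq_abs, sq_abs, Fin.sum_univ_three, e0, PiLp.sub_apply, PiLp.smul_apply,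
    EuclideanSpace.single, PiLp.single_apply, smul_eq_mul, if_neg h20, if_neg h10, if_true]
  ring

/-- spherical integral -/
theorem sph (ξ : ℝ) (f : ℝ → ℝ≥0∞) (hf : Measurable f) (X : E3) :
    ∫⁻ Y : E3, f ‖Y‖ * ENNReal.ofReal (1 / (ξ ^ 2 + ‖X - Y‖ ^ 2)) =
      ∫⁻ s in Ioi (0 : ℝ), ENNReal.ofReal (2 * Real.pi * s) *
        (f s * ∫⁻ τ in Ioo (-s) s, ENNReal.ofReal (1 / (ξ ^ 2 + ‖X‖ ^ 2 + s ^ 2 - 2 * ‖X‖ * τ))) := by
  obtain ⟨R, hR⟩ := exists_rot X
  have hm : Measurable (fun Y : E3 => f ‖Y‖ * ENNReal.ofReal (1 / (ξ ^ 2 + ‖X - Y‖ ^ 2))) := by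
    fun_prop
  rw [← (R.symm.measurePreserving).lintegral_comp hm]
  let k : ℝ × ℝ → ℝ≥0∞ := fun p => f (Real.sqrt p.1) *
    ENNReal.ofReal (1 / (ξ ^ 2 + ‖X‖ ^ 2 + p.1 - 2 * ‖X‖ * p.2))
  have hk : Measurable k := by
    apply Measurable.mul
    · exact hf.comp (Real.continuous_sqrt.measurable.comp measurable_fst)
    · fun_prop
  have h1 : ∀ Y : E3, f ‖R.symm Y‖ * ENNReal.ofReal (1 / (ξ ^ 2 + ‖X - R.symm Y‖ ^ 2)) =
      k (‖Y‖ ^ 2, Y 0) := by
    intro Y
    have h2 : ‖X - R.symm Y‖ = ‖‖X‖ • e0 - Y‖ := by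
      rw [← R.norm_map (X - R.symm Y), map_sub, hR, LinearIsometryEquiv.apply_symm_apply]
    rw [h2, norm_sub_e0, LinearIsometryEquiv.norm_map]
    simp only [k]
    rw [Real.sqrt_sq (norm_nonneg _)]
    congr 3
    ring
  simp_rw [h1]
  rw [axial k hk]
  apply setLIntegral_congr_fun measurableSet_Ioi
  intro s hs
  have hs' := mem_Ioi.mp hs
  simp only [k]
  rw [Real.sqrt_sq hs'.le]
  congr 1
  rw [lintegral_const_mul _ (by fun_prop)]

/-- inner integral -/
theorem inner_eval (z y : ℝ × ℝ) (hz : 0 ≤ z.2) (hy : 0 < y.2) (hzy : y.2 ≠ z.2) :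
    ∫⁻ τ in Ioo (-y.2) y.2,
      ENNReal.ofReal (1 / ((z.1 - y.1) ^ 2 + z.2 ^ 2 + y.2 ^ 2 - 2 * z.2 * τ)) =
      ENNReal.ofReal (2 * Real.pi * N z y) := by
  have hpos : ∀ τ ∈ Icc (-y.2) y.2,
      0 < (z.1 - y.1) ^ 2 + z.2 ^ 2 + y.2 ^ 2 - 2 * z.2 * τ := by
    intro τ hτ
    have h1 : 0 < (z.2 - y.2) ^ 2 := by
      have : z.2 - y.2 ≠ 0 := sub_ne_zero.mpr hzy.symm
      positivity
    nlinarith [sq_nonneg (z.1 - y.1), mul_le_mul_of_nonneg_left hτ.2 hz]
  have hcont : ContinuousOn (fun τ => 1 / ((z.1 - y.1) ^ 2 + z.2 ^ 2 + y.2 ^ 2 - 2 * z.2 * τ))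
      (Icc (-y.2) y.2) := by
    apply ContinuousOn.div continuousOn_const (by fun_prop)
    intro τ hτ
    exact (hpos τ hτ).ne'
  have hint : IntegrableOn (fun τ => 1 / ((z.1 - y.1) ^ 2 + z.2 ^ 2 + y.2 ^ 2 - 2 * z.2 * τ))
      (Icc (-y.2) y.2) := hcont.integrableOn_Icc
  have hle : -y.2 ≤ y.2 := by linarith
  rw [← ofReal_integral_eq_lintegral_ofReal (hint.mono_set Ioo_subset_Icc_self)]
  · congr 1
    rw [← integral_Ioc_eq_integral_Ioo, ← intervalIntegral.integral_of_le hle]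
    by_cases hz0 : z.2 = 0
    · simp only [N, hz0]
      have h2 : 0 < (z.1 - y.1) ^ 2 + y.2 ^ 2 := by positivity
      simp
      field_simp
      ring
    · have hzp : 0 < z.2 := lt_of_le_of_ne hz (Ne.symm hz0)
      simp only [N, if_neg hz0, G]
      have hder : ∀ τ ∈ uIcc (-y.2) y.2, HasDerivAt (fun τ => -(Real.log
          ((z.1 - y.1) ^ 2 + z.2 ^ 2 + y.2 ^ 2 - 2 * z.2 * τ)) / (2 * z.2))
          (1 / ((z.1 - y.1) ^ 2 + z.2 ^ 2 + y.2 ^ 2 - 2 * z.2 * τ)) τ := by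
        intro τ hτ
        rw [uIcc_of_le hle] at hτ
        have h3 : HasDerivAt (fun τ : ℝ => (z.1 - y.1) ^ 2 + z.2 ^ 2 + y.2 ^ 2 - 2 * z.2 * τ)
            (-(2 * z.2)) τ := by
          have := ((hasDerivAt_id τ).const_mul (2 * z.2)).const_sub
            ((z.1 - y.1) ^ 2 + z.2 ^ 2 + y.2 ^ 2)
          simpa using this
        have h4 := (h3.log (hpos τ hτ).ne').neg.div_const (2 * z.2)
        have h5 := (hpos τ hτ).ne'
        refine HasDerivAt.congr_deriv h4 ?_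
        field_simp
      rw [intervalIntegral.integral_eq_sub_of_hasDerivAt hder
        ((intervalIntegrable_iff_integrableOn_Icc_of_le hle).mpr hint)]
      have e1 : (z.1 - y.1) ^ 2 + z.2 ^ 2 + y.2 ^ 2 - 2 * z.2 * y.2 =
          (z.1 - y.1) ^ 2 + (z.2 - y.2) ^ 2 := by ring
      have e2 : (z.1 - y.1) ^ 2 + z.2 ^ 2 + y.2 ^ 2 - 2 * z.2 * -y.2 =
          (z.1 - y.1) ^ 2 + (z.2 + y.2) ^ 2 := by ring
      have p1 := hpos y.2 (right_mem_Icc.mpr hle)
      have p2 := hpos (-y.2) (left_mem_Icc.mpr hle)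
      rw [e1] at p1 ⊢
      rw [e2] at p2 ⊢
      rw [Real.log_div p2.ne' p1.ne']
      field_simp
      ring
  · refine (ae_restrict_iff' measurableSet_Ioo).mpr (Eventually.of_forall fun τ hτ => ?_)
    exact (one_div_pos.mpr (hpos τ (Ioo_subset_Icc_self hτ))).le

theorem ofReal_split (a b : ℝ) (ha : 0 ≤ a) :
    ENNReal.ofReal (1 / (a * b)) = ENNReal.ofReal (1 / a) * ENNReal.ofReal (1 / b) := by
  rw [← ENNReal.ofReal_mul (by positivity)]
  congr 1
  rw [one_div_mul_one_div]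

end VD.M_M1

namespace VD

open M_M1 in
/-- phi as Newtonian potential in R x R^3 (rotation + spherical integral) -/
theorem mM1 (hK0 : StK0) (hK1 : StK1) (hK2 : StK2) : StM1 := by
  intro A hA hA' hvol X
  have hradm : Measurable rad := by
    unfold rad
    fun_prop
  rw [← lintegral_indicator (hradm hA), Measure.volume_eq_prod]
  have hm : Measurable (fun Y : ℝ × E3 => (rad ⁻¹' A).indicator
      (fun Y => ENNReal.ofReal (1 / (‖Y.2‖ * qd X Y))) Y) := by
    apply Measurable.indicator _ (hradm hA)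
    unfold qd
    fun_prop
  rw [lintegral_prod _ hm.aemeasurable]
  have hN : Measurable (N (rad X)) := hK0.1.comp (measurable_const.prodMk measurable_id)
  have h1 : ∀ y1 : ℝ, ∫⁻ Y : E3, (rad ⁻¹' A).indicator
      (fun Y => ENNReal.ofReal (1 / (‖Y.2‖ * qd X Y))) (y1, Y) =
      ∫⁻ s : ℝ, A.indicator (fun y => ENNReal.ofReal (4 * Real.pi ^ 2 * N (rad X) y)) (y1, s) := by
    intro y1
    let f : ℝ → ℝ≥0∞ := fun s => A.indicator (fun y => ENNReal.ofReal (1 / y.2)) (y1, s)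
    have hf : Measurable f := by
      have : Measurable (A.indicator (fun y : ℝ × ℝ => ENNReal.ofReal (1 / y.2))) := by
        apply Measurable.indicator _ hA
        fun_prop
      exact this.comp (measurable_const.prodMk measurable_id)
    have h2 : ∀ Y : E3, (rad ⁻¹' A).indicator
        (fun Y => ENNReal.ofReal (1 / (‖Y.2‖ * qd X Y))) (y1, Y) =
        f ‖Y‖ * ENNReal.ofReal (1 / ((X.1 - y1) ^ 2 + ‖X.2 - Y‖ ^ 2)) := by
      intro Y
      simp only [f]
      by_cases h : (y1, ‖Y‖) ∈ A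
      · have h' : (y1, Y) ∈ rad ⁻¹' A := h
        rw [indicator_of_mem h', indicator_of_mem h]
        simp only [qd]
        rw [ofReal_split _ _ (norm_nonneg _)]
      · have h' : (y1, Y) ∉ rad ⁻¹' A := h
        rw [indicator_of_notMem h', indicator_of_notMem h, zero_mul]
    simp_rw [h2]
    rw [sph _ f hf, ← lintegral_indicator measurableSet_Ioi]
    apply lintegral_congr_ae
    have hne : ∀ᵐ s : ℝ, s ≠ ‖X.2‖ := by
      rw [ae_iff]
      simp
    filter_upwards [hne] with s hs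
    by_cases hs0 : 0 < s
    · rw [indicator_of_mem (mem_Ioi.mpr hs0)]
      simp only [f]
      by_cases h : (y1, s) ∈ A
      · rw [indicator_of_mem h, indicator_of_mem h]
        have h3 := inner_eval (rad X) (y1, s) (norm_nonneg _) hs0 hs
        simp only [rad] at h3 ⊢
        rw [h3, ← ENNReal.ofReal_mul (by positivity), ← ENNReal.ofReal_mul (by positivity)]
        congr 1
        field_simp
        ring
      · rw [indicator_of_notMem h, indicator_of_notMem h, zero_mul, mul_zero]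
    · have h : (y1, s) ∉ A := fun h => hs0 (hA' h)
      rw [indicator_of_notMem (by simpa using hs0), indicator_of_notMem h]
  simp_rw [h1]
  have hm2 : Measurable (A.indicator (fun y => ENNReal.ofReal (4 * Real.pi ^ 2 * N (rad X) y))) := by
    apply Measurable.indicator _ hA
    fun_prop
  rw [← lintegral_prod _ hm2.aemeasurable, ← Measure.volume_eq_prod, lintegral_indicator hA]
  have hi := hK2 A hA hA' hvol (rad X) (norm_nonneg _)
  unfold phi
  rw [← integral_const_mul, ← ofReal_integral_eq_lintegral_ofReal (hi.1.const_mul _)]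
  have hne : ∀ᵐ y : ℝ × ℝ, y ≠ rad X := by
    rw [ae_iff]
    simp
  filter_upwards [ae_restrict_mem hA, ae_restrict_of_ae hne] with y hy hy'
  have h5 := (hK1 (rad X) y (norm_nonneg _) (hA' hy) (Ne.symm hy')).1
  simp only [Pi.zero_apply]
  positivity

end VD
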